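import Mathlib

set_option autoImplicit false

/-!
Small hereditary classes of graphs: the number of traces on a set of `k` vertices is
`O(k log k)`.
-/

namespace Pool.Agent.H314.PL

open Finset

/-- a class of graphs on the sets `Fin n`, closed under induced subgraphs (and isomorphism) -/
def Hered (P : (n : ℕ) → Set (SimpleGraph (Fin n))) : Prop :=
  ∀ (n m : ℕ) (e : Fin m ↪ Fin n) (G : SimpleGraph (Fin n)), G ∈ P n → G.comap e ∈ P m

/-- small, with constant `c` -/
def SmallC (c : ℕ) (P : (n : ℕ) → Set (SimpleGraph (Fin n))) : Prop :=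
  ∀ n : ℕ, (P n).ncard ≤ n.factorial * c ^ n

/-- the set `Y` separates all the pairs of elements of `U` -/
def Sepd {V : Type} (G : SimpleGraph V) (Y U : Finset V) : Prop :=
  ∀ a ∈ U, ∀ b ∈ U, a ≠ b → ∃ y ∈ Y, ¬ (G.Adj y a ↔ G.Adj y b)

/-- distinct traces are counted by the class -/
theorem traces (c : ℕ) (P : (n : ℕ) → Set (SimpleGraph (Fin n))) (h1 : Hered P)
    (h2 : SmallC c P) (n : ℕ) (G : SimpleGraph (Fin n)) (hG : G ∈ P n) (Y X : Finset (Fin n))
    (hd : Disjoint Y X) (hs : Sepd G Y X) (m : ℕ) :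
    X.card.descFactorial m ≤ (Y.card + m).factorial * c ^ (Y.card + m) := by
  classical
  let e : (Fin m ↪ {x // x ∈ X}) → (Fin (Y.card + m) ↪ Fin n) := fun τ =>
    ⟨Fin.append (Y.orderEmbOfFin rfl) (fun j => (τ j : Fin n)), by
      rw [Fin.append_injective_iff]
      refine ⟨(Y.orderEmbOfFin rfl).injective, ?_, ?_⟩
      · intro i j hij
        exact τ.injective (Subtype.ext hij)
      · intro i j hij
        have h3 : (Y.orderEmbOfFin rfl) i ∈ Y := Finset.orderEmbOfFin_mem _ _ _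
        have h4 : ((τ j : {x // x ∈ X}) : Fin n) ∈ X := (τ j).2
        exact (Finset.disjoint_left.1 hd h3) (hij ▸ h4)⟩
  let Φ : (Fin m ↪ {x // x ∈ X}) → {H : SimpleGraph (Fin (Y.card + m)) // H ∈ P (Y.card + m)} :=
    fun τ => ⟨G.comap (e τ), h1 _ _ _ _ hG⟩
  have hΦ : Function.Injective Φ := by
    intro τ τ' h
    have h3 : G.comap (e τ) = G.comap (e τ') := congrArg Subtype.val h
    by_contra hne
    have : ∃ j, τ j ≠ τ' j := by
      by_contra hcon
      push Not at hcon
      exact hne (Function.Embedding.ext hcon)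
    obtain ⟨j, hj⟩ := this
    obtain ⟨y, hy, hya⟩ := hs (τ j) (τ j).2 (τ' j) (τ' j).2 (fun h => hj (Subtype.ext h))
    have : y ∈ Set.range (Y.orderEmbOfFin rfl) := by
      rw [Finset.range_orderEmbOfFin]
      exact hy
    obtain ⟨i, hi⟩ := this
    apply hya
    have h4 : (G.comap (e τ)).Adj (Fin.castAdd m i) (Fin.natAdd _ j) ↔
        (G.comap (e τ')).Adj (Fin.castAdd m i) (Fin.natAdd _ j) := by rw [h3]
    simp only [SimpleGraph.comap_adj] at h4
    have e1 : ∀ σ, e σ (Fin.castAdd m i) = y := by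
      intro σ
      exact (Fin.append_left (Y.orderEmbOfFin rfl) (fun j => (σ j : Fin n)) i).trans hi
    have e2 : ∀ σ, e σ (Fin.natAdd _ j) = (σ j : Fin n) := by
      intro σ
      exact Fin.append_right (Y.orderEmbOfFin rfl) (fun j => (σ j : Fin n)) j
    rw [e1, e1, e2, e2] at h4
    exact h4
  have h5 : Nat.card (Fin m ↪ {x // x ∈ X}) ≤
      Nat.card {H : SimpleGraph (Fin (Y.card + m)) // H ∈ P (Y.card + m)} :=
    Nat.card_le_card_of_injective Φ hΦ
  have h6 : Nat.card {H : SimpleGraph (Fin (Y.card + m)) // H ∈ P (Y.card + m)} =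
      (P (Y.card + m)).ncard := rfl
  rw [h6, Nat.card_eq_fintype_card, Fintype.card_embedding_eq, Fintype.card_coe,
    Fintype.card_fin] at h5
  exact h5.trans (h2 _)

/-- the numerical consequence -/
theorem num (c k M : ℕ) (hk : 1 ≤ k)
    (h : ∀ m, M.descFactorial m ≤ (k + m).factorial * c ^ (k + m)) :
    M ≤ (16 * c ^ 2 + 1) * (k * (Nat.log 2 k + 1)) := by
  have hc : 1 ≤ c := by
    rcases Nat.eq_zero_or_pos c with h0 | h0
    · have h3 := h 0
      subst h0
      simp only [Nat.descFactorial_zero, add_zero] at h3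
      rw [zero_pow (by omega)] at h3
      omega
    · exact h0
  set L := Nat.log 2 k with hL
  set m := k * (L + 1) with hm
  have hkm : k ≤ m := by
    rw [hm]
    exact Nat.le_mul_of_pos_right k (by omega)
  have hm1 : m ≠ 0 := by omega
  have hk2 : k ≤ 2 ^ (L + 1) := (Nat.lt_pow_succ_log_self (by norm_num) k).le
  have hL2 : L + 1 ≤ 2 ^ (L + 1) := Nat.lt_two_pow_self.le
  have h3 : 2 * m * c ≤ (8 * c) ^ (L + 1) := by
    have h4 : c ≤ c ^ (L + 1) := Nat.le_self_pow (by omega) c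
    have h5 : 2 ≤ 2 ^ (L + 1) := Nat.le_self_pow (by omega) 2
    calc 2 * m * c = 2 * k * (L + 1) * c := by rw [hm]; ring
      _ ≤ 2 ^ (L + 1) * 2 ^ (L + 1) * 2 ^ (L + 1) * c ^ (L + 1) := by
          gcongr
      _ = (8 * c) ^ (L + 1) := by
          rw [← mul_pow, ← mul_pow, ← mul_pow]
          norm_num
  have h4 : (2 * m * c) ^ k ≤ (8 * c) ^ m := by
    calc (2 * m * c) ^ k ≤ ((8 * c) ^ (L + 1)) ^ k := Nat.pow_le_pow_left h3 k
      _ = (8 * c) ^ m := by rw [← pow_mul, hm, mul_comm k]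
  have h5 : (M + 1 - m) ^ m ≤ (16 * m * c ^ 2) ^ m := by
    calc (M + 1 - m) ^ m ≤ M.descFactorial m := Nat.pow_sub_le_descFactorial M m
      _ ≤ (k + m).factorial * c ^ (k + m) := h m
      _ ≤ (k + m) ^ (k + m) * c ^ (k + m) := by
          gcongr
          exact Nat.factorial_le_pow _
      _ = ((k + m) * c) ^ (k + m) := by rw [mul_pow]
      _ ≤ (2 * m * c) ^ (k + m) := by
          gcongr
          omega
      _ = (2 * m * c) ^ k * (2 * m * c) ^ m := pow_add _ _ _
      _ ≤ (8 * c) ^ m * (2 * m * c) ^ m := by gcongr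
      _ = (16 * m * c ^ 2) ^ m := by
          rw [← mul_pow]
          congr 1
          ring
  have h6 : M + 1 - m ≤ 16 * m * c ^ 2 := (Nat.pow_le_pow_iff_left hm1).1 h5
  calc M ≤ 16 * m * c ^ 2 + m := by omega
    _ = (16 * c ^ 2 + 1) * m := by ring

end Pool.Agent.H314.PL
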