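import Pool.Agent.H314.PL.A

set_option autoImplicit false

/-!
A small separating set, by greedy choice.
-/

namespace Pool.Agent.H314.PL

open Finset

open scoped Classical in
/-- the vertices of `R` that separate `a` and `b` -/
noncomputable def sepR {V : Type} (G : SimpleGraph V) (R : Finset V) (a b : V) : Finset V :=
  R.filter (fun x => ¬ (G.Adj x a ↔ G.Adj x b))

theorem mem_sepR {V : Type} {G : SimpleGraph V} {R : Finset V} {a b x : V} :
    x ∈ sepR G R a b ↔ x ∈ R ∧ ¬ (G.Adj x a ↔ G.Adj x b) := by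
  classical
  unfold sepR
  rw [mem_filter]

theorem sepR_self {V : Type} (G : SimpleGraph V) (R : Finset V) (a : V) : sepR G R a a = ∅ := by
  ext x
  simp [mem_sepR]

open scoped Classical in
/-- the pairs of elements of `U` that are not separated by `Y` -/
noncomputable def Un {V : Type} (G : SimpleGraph V) (U Y : Finset V) : Finset (V × V) :=
  (U ×ˢ U).filter (fun p => p.1 ≠ p.2 ∧ ∀ y ∈ Y, (G.Adj y p.1 ↔ G.Adj y p.2))

theorem mem_Un {V : Type} {G : SimpleGraph V} {U Y : Finset V} {p : V × V} :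
    p ∈ Un G U Y ↔ (p.1 ∈ U ∧ p.2 ∈ U) ∧ p.1 ≠ p.2 ∧ ∀ y ∈ Y, (G.Adj y p.1 ↔ G.Adj y p.2) := by
  classical
  unfold Un
  rw [mem_filter, mem_product]

open scoped Classical in
theorem step {V : Type} (G : SimpleGraph V) (R U Y : Finset V) (κ : ℕ) (hR : R.Nonempty)
    (h : ∀ a ∈ U, ∀ b ∈ U, a ≠ b → R.card ≤ κ * (sepR G R a b).card) :
    ∃ y ∈ R, κ * (Un G U (insert y Y)).card ≤ (κ - 1) * (Un G U Y).card := by
  by_contra hcon
  push Not at hcon
  have h1 : ∀ y ∈ R, κ * ((Un G U Y).filter (fun p => ¬ (G.Adj y p.1 ↔ G.Adj y p.2))).card <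
      (Un G U Y).card := by
    intro y hy
    have h2 := hcon y hy
    have h3 : (Un G U (insert y Y)) = (Un G U Y).filter (fun p => (G.Adj y p.1 ↔ G.Adj y p.2)) := by
      ext p
      rw [mem_filter, mem_Un, mem_Un]
      constructor
      · rintro ⟨h4, h5, h6⟩
        exact ⟨⟨h4, h5, fun z hz => h6 z (mem_insert_of_mem hz)⟩, h6 y (mem_insert_self _ _)⟩
      · rintro ⟨⟨h4, h5, h6⟩, h7⟩
        refine ⟨h4, h5, fun z hz => ?_⟩
        rcases mem_insert.1 hz with h8 | h8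
        · rw [h8]; exact h7
        · exact h6 z h8
    have h4 : (Un G U (insert y Y)).card +
        ((Un G U Y).filter (fun p => ¬ (G.Adj y p.1 ↔ G.Adj y p.2))).card = (Un G U Y).card := by
      rw [h3]
      exact card_filter_add_card_filter_not _
    rcases Nat.eq_zero_or_pos κ with h0 | h0
    · subst h0
      simp at h2
    obtain ⟨k, rfl⟩ : ∃ k, κ = k + 1 := ⟨κ - 1, by omega⟩
    rw [Nat.add_sub_cancel] at h2
    generalize (Un G U Y).card = A at *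
    generalize (Un G U (insert y Y)).card = B at *
    generalize ((Un G U Y).filter (fun p => ¬ (G.Adj y p.1 ↔ G.Adj y p.2))).card = D at *
    subst h4
    nlinarith
  have h5 : ∑ y ∈ R, κ * ((Un G U Y).filter (fun p => ¬ (G.Adj y p.1 ↔ G.Adj y p.2))).card <
      ∑ _y ∈ R, (Un G U Y).card := sum_lt_sum_of_nonempty hR h1
  rw [sum_const, smul_eq_mul, ← mul_sum] at h5
  have h6 : ∑ y ∈ R, ((Un G U Y).filter (fun p => ¬ (G.Adj y p.1 ↔ G.Adj y p.2))).card =
      ∑ p ∈ Un G U Y, (sepR G R p.1 p.2).card := by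
    simp only [sepR, card_filter]
    rw [sum_comm]
  rw [h6, mul_sum] at h5
  have h7 : ∑ _p ∈ Un G U Y, R.card ≤ ∑ p ∈ Un G U Y, κ * (sepR G R p.1 p.2).card := by
    apply sum_le_sum
    intro p hp
    obtain ⟨⟨h8, h9⟩, h10, -⟩ := mem_Un.1 hp
    exact h _ h8 _ h9 h10
  rw [sum_const, smul_eq_mul, mul_comm] at h7
  omega

theorem iter {V : Type} (G : SimpleGraph V) (R U : Finset V) (κ : ℕ) (hR : R.Nonempty)
    (h : ∀ a ∈ U, ∀ b ∈ U, a ≠ b → R.card ≤ κ * (sepR G R a b).card) (t : ℕ) :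
    ∃ Y ⊆ R, Y.card ≤ t ∧ κ ^ t * (Un G U Y).card ≤ (κ - 1) ^ t * U.card ^ 2 := by
  classical
  induction t with
  | zero =>
    refine ⟨∅, empty_subset _, by simp, ?_⟩
    rw [pow_zero, pow_zero, one_mul, one_mul]
    unfold Un
    refine (card_filter_le _ _).trans ?_
    rw [card_product, sq]
  | succ t ih =>
    obtain ⟨Y, hY, hc, hu⟩ := ih
    obtain ⟨y, hy, hs⟩ := step G R U Y κ hR h
    refine ⟨insert y Y, insert_subset hy hY, (card_insert_le _ _).trans (by omega), ?_⟩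
    calc κ ^ (t + 1) * (Un G U (insert y Y)).card
        = κ ^ t * (κ * (Un G U (insert y Y)).card) := by ring
      _ ≤ κ ^ t * ((κ - 1) * (Un G U Y).card) := Nat.mul_le_mul_left _ hs
      _ = (κ - 1) * (κ ^ t * (Un G U Y).card) := by ring
      _ ≤ (κ - 1) * ((κ - 1) ^ t * U.card ^ 2) := Nat.mul_le_mul_left _ hu
      _ = (κ - 1) ^ (t + 1) * U.card ^ 2 := by ring

theorem bern (a n : ℕ) : a ^ (n + 1) + (n + 1) * a ^ n ≤ (a + 1) ^ (n + 1) := by
  induction n with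
  | zero => simp
  | succ n ih =>
    calc a ^ (n + 1 + 1) + (n + 1 + 1) * a ^ (n + 1)
        ≤ (a ^ (n + 1) + (n + 1) * a ^ n) * (a + 1) := by
          have : (a ^ (n + 1) + (n + 1) * a ^ n) * (a + 1) =
            a ^ (n + 1 + 1) + (n + 1 + 1) * a ^ (n + 1) + (n + 1) * a ^ n := by ring
          omega
      _ ≤ (a + 1) ^ (n + 1) * (a + 1) := Nat.mul_le_mul_right _ ih
      _ = (a + 1) ^ (n + 1 + 1) := by ring

theorem half (κ : ℕ) (hκ : 1 ≤ κ) : 2 * (κ - 1) ^ κ ≤ κ ^ κ := by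
  obtain ⟨a, rfl⟩ : ∃ a, κ = a + 1 := ⟨κ - 1, by omega⟩
  rw [Nat.add_sub_cancel]
  have h := bern a a
  have h2 : (a + 1) * a ^ a = a ^ (a + 1) + a ^ a := by ring
  omega

/-- greedy sampling -/
theorem samp {V : Type} (G : SimpleGraph V) (R U : Finset V) (κ : ℕ) (hκ : 1 ≤ κ)
    (hR : R.Nonempty)
    (h : ∀ a ∈ U, ∀ b ∈ U, a ≠ b → R.card ≤ κ * (sepR G R a b).card) :
    ∃ Y ⊆ R, Y.card ≤ κ * (2 * Nat.log 2 U.card + 2) ∧ Sepd G Y U := by
  obtain ⟨Y, hY, hc, hu⟩ := iter G R U κ hR h (κ * (2 * Nat.log 2 U.card + 2))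
  refine ⟨Y, hY, hc, ?_⟩
  by_contra hcon
  unfold Sepd at hcon
  push Not at hcon
  obtain ⟨a, ha, b, hb, hab, hy⟩ := hcon
  have h1 : 1 ≤ (Un G U Y).card := by
    rw [Nat.one_le_iff_ne_zero, ← Nat.pos_iff_ne_zero, card_pos]
    exact ⟨(a, b), mem_Un.2 ⟨⟨ha, hb⟩, hab, hy⟩⟩
  set j := 2 * Nat.log 2 U.card + 2 with hj
  have h2 : U.card ^ 2 < 2 ^ j := by
    have h3 : U.card < 2 ^ (Nat.log 2 U.card + 1) := Nat.lt_pow_succ_log_self (by norm_num) _
    calc U.card ^ 2 < (2 ^ (Nat.log 2 U.card + 1)) ^ 2 := Nat.pow_lt_pow_left h3 (by norm_num)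
      _ = 2 ^ j := by
          rw [← pow_mul]
          congr 1
          omega
  have h3 : 2 ^ j * (κ - 1) ^ (κ * j) ≤ κ ^ (κ * j) := by
    rw [pow_mul, pow_mul, ← mul_pow]
    exact Nat.pow_le_pow_left (half κ hκ) j
  have h4 : 0 < κ ^ (κ * j) := Nat.pow_pos (by omega)
  have h5 : κ ^ (κ * j) ≤ (κ - 1) ^ (κ * j) * U.card ^ 2 :=
    (Nat.le_mul_of_pos_right _ h1).trans hu
  rcases Nat.eq_zero_or_pos ((κ - 1) ^ (κ * j)) with h6 | h6
  · rw [h6] at h5
    omega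
  · have h7 : (κ - 1) ^ (κ * j) * U.card ^ 2 < (κ - 1) ^ (κ * j) * 2 ^ j :=
      Nat.mul_lt_mul_of_pos_left h2 h6
    rw [mul_comm] at h3
    omega

end Pool.Agent.H314.PL
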