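import Pool.Agent.H314.PL.B

set_option autoImplicit false

/-!
Near twins in the graphs of a small class.
-/

namespace Pool.Agent.H314.PL

open Finset

/-- the constant of the lemma on near twins -/
def KK (c : ℕ) : ℕ := 4 * (16 * c ^ 2 + 2)

/-- a pair of near twins -/
theorem pair (c : ℕ) (P : (n : ℕ) → Set (SimpleGraph (Fin n))) (h1 : Hered P)
    (h2 : SmallC c P) (n : ℕ) (G : SimpleGraph (Fin n)) (hG : G ∈ P n)
    (R U : Finset (Fin n)) (hUR : U ⊆ R) (hU : 2 ≤ U.card) :
    ∃ a ∈ U, ∃ b ∈ U, a ≠ b ∧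
      U.card * (sepR G R a b).card ≤ KK c * (Nat.log 2 U.card + 1) ^ 2 * R.card := by
  by_contra hcon
  push Not at hcon
  set L := Nat.log 2 U.card + 1 with hL
  set A := 16 * c ^ 2 + 2 with hA
  have hK : KK c = 4 * A := rfl
  rw [hK] at hcon
  have hRne : R.Nonempty := by
    have : U.Nonempty := card_pos.1 (by omega)
    exact this.mono hUR
  have hL1 : 1 ≤ L := by omega
  have hAL : 0 < 4 * A * L ^ 2 := by positivity
  -- the set `U` is not small
  have hbig : 4 * A * L ^ 2 < U.card := by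
    obtain ⟨a, ha, b, hb, hab⟩ := one_lt_card.1 (show 1 < U.card by omega)
    have h3 := hcon a ha b hb hab
    by_contra h4
    have h4 : U.card ≤ 4 * A * L ^ 2 := not_lt.1 h4
    have h5 : (sepR G R a b).card ≤ R.card := by
      classical
      unfold sepR
      exact card_filter_le _ _
    have := Nat.mul_le_mul h4 h5
    omega
  set κ := U.card / (4 * A * L ^ 2) + 1 with hκ
  obtain ⟨Y, hYR, hYc, hYs⟩ := samp G R U κ (Nat.succ_pos _) hRne (by
    intro a ha b hb hab
    have h3 := (hcon a ha b hb hab).le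
    have h4 : U.card ≤ κ * (4 * A * L ^ 2) := by
      rw [hκ]
      have := Nat.lt_div_mul_add (a := U.card) hAL
      nlinarith
    have h5 : 4 * A * L ^ 2 * R.card ≤ 4 * A * L ^ 2 * (κ * (sepR G R a b).card) := by
      calc 4 * A * L ^ 2 * R.card ≤ U.card * (sepR G R a b).card := h3
        _ ≤ (κ * (4 * A * L ^ 2)) * (sepR G R a b).card := Nat.mul_le_mul_right _ h4
        _ = 4 * A * L ^ 2 * (κ * (sepR G R a b).card) := by ring
    exact Nat.le_of_mul_le_mul_left h5 hAL)
  have hYc2 : Y.card ≤ κ * (2 * L) := hYc.trans (by rw [hL]; apply Nat.mul_le_mul_left; omega)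
  -- `Y` has few elements
  have hκ2 : κ * (4 * A * L ^ 2) ≤ 2 * U.card := by
    rw [hκ, add_mul, one_mul]
    have := Nat.div_mul_le_self U.card (4 * A * L ^ 2)
    omega
  have hYU : 2 * (A * L * Y.card) ≤ 2 * U.card := by
    calc 2 * (A * L * Y.card) ≤ 2 * (A * L * (κ * (2 * L))) := by gcongr
      _ = κ * (4 * A * L ^ 2) := by ring
      _ ≤ 2 * U.card := hκ2
  have hY1 : 1 ≤ Y.card := by
    obtain ⟨a, ha, b, hb, hab⟩ := one_lt_card.1 (show 1 < U.card by omega)
    obtain ⟨y, hy, -⟩ := hYs a ha b hb hab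
    exact card_pos.2 ⟨y, hy⟩
  have hYle : Y.card ≤ U.card := by
    have : Y.card ≤ A * L * Y.card := Nat.le_mul_of_pos_left _ (by positivity)
    omega
  classical
  have hX : (U \ Y).card ≤ (16 * c ^ 2 + 1) * (Y.card * (Nat.log 2 Y.card + 1)) := by
    apply num c Y.card _ hY1
    intro m
    apply traces c P h1 h2 n G hG Y (U \ Y) disjoint_sdiff
    intro a ha b hb hab
    exact hYs a (mem_sdiff.1 ha).1 b (mem_sdiff.1 hb).1 hab
  have hX2 : U.card ≤ (U \ Y).card + Y.card := by
    have := card_sdiff_add_card_inter U Y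
    have h3 : (U ∩ Y).card ≤ Y.card := card_le_card inter_subset_right
    omega
  have hlog : Nat.log 2 Y.card + 1 ≤ L := by
    rw [hL]
    have := Nat.log_mono_right (b := 2) hYle
    omega
  have hfin : U.card ≤ (A - 1 + 1) * L * Y.card := by
    calc U.card ≤ (U \ Y).card + Y.card := hX2
      _ ≤ (16 * c ^ 2 + 1) * (Y.card * L) + Y.card * L := by
          gcongr
          · exact hX.trans (by gcongr)
          · exact Nat.le_mul_of_pos_right _ hL1
      _ = (A - 1 + 1) * L * Y.card := by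
          rw [hA]
          have : 16 * c ^ 2 + 2 - 1 + 1 = 16 * c ^ 2 + 2 := by omega
          rw [this]
          ring
  have hfin2 : U.card ≤ A * L * Y.card := by
    have : A - 1 + 1 = A := by omega
    rwa [this] at hfin
  -- so there is equality, but `κ` was rounded
  have hstrict : κ * (4 * A * L ^ 2) < 2 * U.card := by
    rw [hκ, add_mul, one_mul]
    have := Nat.div_mul_le_self U.card (4 * A * L ^ 2)
    omega
  have : 2 * (A * L * Y.card) < 2 * U.card := by
    calc 2 * (A * L * Y.card) ≤ 2 * (A * L * (κ * (2 * L))) := by gcongr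
      _ = κ * (4 * A * L ^ 2) := by ring
      _ < 2 * U.card := hstrict
  omega

open scoped Classical in
/-- many disjoint pairs of near twins -/
theorem pairs (c : ℕ) (P : (n : ℕ) → Set (SimpleGraph (Fin n))) (h1 : Hered P)
    (h2 : SmallC c P) (n : ℕ) (G : SimpleGraph (Fin n)) (hG : G ∈ P n)
    (R : Finset (Fin n)) (hR : 2 ≤ R.card) (t : ℕ) (ht : 4 * t < R.card + 4) :
    ∃ A ⊆ R, ∃ B ⊆ R, Disjoint A B ∧ A.card = t ∧ B.card = t ∧
      ∀ a ∈ A, ∃ b ∈ B, (sepR G R a b).card ≤ 2 * KK c * (Nat.log 2 R.card + 1) ^ 2 := by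
  induction t with
  | zero => exact ⟨∅, empty_subset _, ∅, empty_subset _, disjoint_empty_left _, rfl, rfl, by simp⟩
  | succ t ih =>
    obtain ⟨A, hA, B, hB, hAB, hAc, hBc, hs⟩ := ih (by omega)
    have hU1 : (R \ (A ∪ B)).card + 2 * t = R.card := by
      have h3 : (A ∪ B).card = 2 * t := by
        rw [card_union_of_disjoint hAB]
        omega
      rw [card_sdiff_of_subset (union_subset hA hB), h3]
      have := card_le_card (union_subset hA hB)
      omega
    set U := R \ (A ∪ B) with hU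
    have hU2 : 2 ≤ U.card := by omega
    have hU3 : R.card ≤ 2 * U.card := by omega
    obtain ⟨a, ha, b, hb, hab, hle⟩ := pair c P h1 h2 n G hG R U sdiff_subset hU2
    obtain ⟨haR, haAB⟩ := mem_sdiff.1 ha
    obtain ⟨hbR, hbAB⟩ := mem_sdiff.1 hb
    rw [mem_union, not_or] at haAB hbAB
    refine ⟨insert a A, insert_subset haR hA, insert b B, insert_subset hbR hB, ?_, ?_, ?_, ?_⟩
    · rw [disjoint_insert_left, disjoint_insert_right, mem_insert, not_or]
      exact ⟨⟨hab, haAB.2⟩, hbAB.1, hAB⟩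
    · rw [card_insert_of_notMem haAB.1, hAc]
    · rw [card_insert_of_notMem hbAB.2, hBc]
    · intro x hx
      rcases mem_insert.1 hx with rfl | hx
      · refine ⟨b, mem_insert_self _ _, ?_⟩
        have h3 : Nat.log 2 U.card + 1 ≤ Nat.log 2 R.card + 1 := by
          have h9 : U.card ≤ R.card := card_le_card sdiff_subset
          exact Nat.succ_le_succ (Nat.log_mono_right h9)
        have h4 : U.card * (sepR G R x b).card ≤
            U.card * (2 * KK c * (Nat.log 2 R.card + 1) ^ 2) := by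
          calc U.card * (sepR G R x b).card ≤ KK c * (Nat.log 2 U.card + 1) ^ 2 * R.card := hle
            _ ≤ KK c * (Nat.log 2 R.card + 1) ^ 2 * (2 * U.card) := by gcongr
            _ = U.card * (2 * KK c * (Nat.log 2 R.card + 1) ^ 2) := by ring
        exact Nat.le_of_mul_le_mul_left h4 (by omega)
      · obtain ⟨y, hy, hys⟩ := hs x hx
        exact ⟨y, mem_insert_of_mem hy, hys⟩

/-- one round of contractions -/
theorem round (c : ℕ) (P : (n : ℕ) → Set (SimpleGraph (Fin n))) (h1 : Hered P)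
    (h2 : SmallC c P) (n : ℕ) (G : SimpleGraph (Fin n)) (hG : G ∈ P n)
    (R : Finset (Fin n)) (hR : 2 ≤ R.card) :
    ∃ R' ⊆ R, R'.Nonempty ∧ 4 * R'.card ≤ 3 * R.card ∧ ∃ rep : Fin n → Fin n,
      (∀ u ∈ R, rep u ∈ R') ∧
      ∀ u, (sepR G R u (rep u)).card ≤ 2 * KK c * (Nat.log 2 R.card + 1) ^ 2 := by
  classical
  obtain ⟨A, hA, B, hB, hAB, hAc, hBc, hs⟩ :=
    pairs c P h1 h2 n G hG R hR ((R.card + 3) / 4) (by omega)
  have hs' : ∀ a : Fin n, ∃ b : Fin n, (a ∈ A → b ∈ B) ∧ (a ∉ A → b = a) ∧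
      (sepR G R a b).card ≤ 2 * KK c * (Nat.log 2 R.card + 1) ^ 2 := by
    intro a
    by_cases ha : a ∈ A
    · obtain ⟨b, hb, hc⟩ := hs a ha
      exact ⟨b, fun _ => hb, fun h => absurd ha h, hc⟩
    · refine ⟨a, fun h => absurd h ha, fun _ => rfl, ?_⟩
      rw [sepR_self, card_empty]
      exact Nat.zero_le _
  choose rep hrep using hs'
  have hcard : (R \ A).card = R.card - (R.card + 3) / 4 := by
    rw [card_sdiff_of_subset hA, hAc]
  refine ⟨R \ A, sdiff_subset, ?_, ?_, rep, ?_, fun u => (hrep u).2.2⟩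
  · rw [← card_pos, hcard]
    omega
  · rw [hcard]
    omega
  · intro u hu
    rw [mem_sdiff]
    by_cases hua : u ∈ A
    · have h3 := (hrep u).1 hua
      exact ⟨hB h3, fun h => disjoint_left.1 hAB h h3⟩
    · rw [(hrep u).2.1 hua]
      exact ⟨hu, hua⟩

end Pool.Agent.H314.PL
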