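import Pool.Agent.H314.PL.C

set_option autoImplicit false

/-!
Labels from rounds of contractions of near twins.
-/

namespace Pool.Agent.H314.PL

open Finset

/-- the codes of the vertices: for each round the name of the representative and a list of
exceptions -/
def Code (N d : ℕ) : ℕ → Type
  | 0 => Fin N
  | T + 1 => Fin N × (Fin d → Option (Fin N)) × Code N d T

/-- the name of the first representative -/
def idc (N d : ℕ) : (T : ℕ) → Code N d T → Fin N
  | 0, x => x
  | _ + 1, x => x.1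

/-- adjacency from the codes -/
def dec (N d : ℕ) : (T : ℕ) → Code N d T → Code N d T → Prop
  | 0, _, _ => False
  | T + 1, x, y => Xor (Xor (dec N d T x.2.2 y.2.2) (∃ j, x.2.1 j = some (idc N d (T + 1) y)))
      (∃ j, y.2.1 j = some (idc N d T x.2.2))

theorem finite_code (N d : ℕ) : ∀ T : ℕ, Finite (Code N d T)
  | 0 => (inferInstance : Finite (Fin N))
  | T + 1 => by
      have := finite_code N d T
      exact (inferInstance : Finite (Fin N × (Fin d → Option (Fin N)) × Code N d T))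

theorem card_code (N d : ℕ) : ∀ T : ℕ, Nat.card (Code N d T) = N * ((N + 1) ^ d * N) ^ T
  | 0 => by
      have : Nat.card (Code N d 0) = Nat.card (Fin N) := rfl
      rw [this]
      simp
  | T + 1 => by
      have h1 := card_code N d T
      have h2 : Nat.card (Code N d (T + 1)) =
        Nat.card (Fin N × (Fin d → Option (Fin N)) × Code N d T) := rfl
      rw [h2, Nat.card_prod, Nat.card_prod, h1]
      have h3 : Nat.card (Fin d → Option (Fin N)) = (N + 1) ^ d := by
        rw [Nat.card_eq_fintype_card]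
        simp
      rw [h3, Nat.card_eq_fintype_card, Fintype.card_fin]
      ring

theorem list_code {n N d : ℕ} (hN : n ≤ N) (s : Finset (Fin n)) (hs : s.card ≤ d) :
    ∃ f : Fin d → Option (Fin N), ∀ x : Fin n, (∃ j, f j = some (Fin.castLE hN x)) ↔ x ∈ s := by
  classical
  refine ⟨fun j => if h : (j : ℕ) < s.card then
    some (Fin.castLE hN (s.equivFin.symm ⟨j, h⟩ : {x // x ∈ s})) else none, fun x => ?_⟩
  constructor
  · rintro ⟨j, hj⟩
    dsimp only at hj
    by_cases h : (j : ℕ) < s.card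
    · rw [dif_pos h, Option.some_inj] at hj
      have := Fin.castLE_injective hN hj
      rw [← this]
      exact (s.equivFin.symm ⟨j, h⟩).2
    · rw [dif_neg h] at hj
      exact absurd hj (by simp)
  · intro hx
    refine ⟨⟨(s.equivFin ⟨x, hx⟩ : ℕ), lt_of_lt_of_le (s.equivFin ⟨x, hx⟩).2 hs⟩, ?_⟩
    dsimp only
    rw [dif_pos (s.equivFin ⟨x, hx⟩).2]
    congr 2
    show ((s.equivFin.symm (s.equivFin ⟨x, hx⟩) : {x // x ∈ s}) : Fin n) = x
    rw [Equiv.symm_apply_apply]

theorem exists_code (c : ℕ) (P : (n : ℕ) → Set (SimpleGraph (Fin n))) (h1 : Hered P)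
    (h2 : SmallC c P) (n : ℕ) (G : SimpleGraph (Fin n)) (hG : G ∈ P n) (N d : ℕ) (hN : n ≤ N)
    (hd : 2 * KK c * (Nat.log 2 n + 1) ^ 2 ≤ d) (T : ℕ) :
    ∀ R : Finset (Fin n), R.Nonempty → 3 ^ T * R.card ≤ 4 ^ T →
      ∃ cod : Fin n → Code N d T, (∀ u ∈ R, idc N d T (cod u) = Fin.castLE hN u) ∧
        ∀ u ∈ R, ∀ v ∈ R, (dec N d T (cod u) (cod v) ↔ G.Adj u v) := by
  induction T with
  | zero =>
    intro R _ hR1
    refine ⟨fun u => Fin.castLE hN u, fun u _ => rfl, fun u hu v hv => ?_⟩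
    have huv : u = v := by
      rw [pow_zero, pow_zero, one_mul] at hR1
      exact card_le_one.1 hR1 u hu v hv
    subst huv
    constructor
    · intro h
      exact False.elim h
    · intro h
      exact absurd h (G.irrefl)
  | succ T ih =>
    intro R hR hRc
    have key : ∃ R' ⊆ R, R'.Nonempty ∧ 3 ^ T * R'.card ≤ 4 ^ T ∧ ∃ rep : Fin n → Fin n,
        (∀ u ∈ R, rep u ∈ R') ∧ ∀ u, (sepR G R u (rep u)).card ≤ d := by
      rcases Nat.lt_or_ge R.card 2 with h3 | h3
      · refine ⟨R, Subset.refl _, hR, ?_, id, fun u hu => hu, fun u => ?_⟩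
        · have h4 : R.card ≤ 1 := by omega
          calc 3 ^ T * R.card ≤ 3 ^ T * 1 := Nat.mul_le_mul_left _ h4
            _ ≤ 4 ^ T := by rw [mul_one]; exact Nat.pow_le_pow_left (by norm_num) T
        · rw [id, sepR_self, card_empty]
          exact Nat.zero_le _
      · obtain ⟨R', hR', hne, hc, rep, hrep, hs⟩ := round c P h1 h2 n G hG R h3
        refine ⟨R', hR', hne, ?_, rep, hrep, fun u => (hs u).trans (le_trans ?_ hd)⟩
        · have h4 : 4 * (3 ^ T * R'.card) ≤ 4 * 4 ^ T := by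
            calc 4 * (3 ^ T * R'.card) = 3 ^ T * (4 * R'.card) := by ring
              _ ≤ 3 ^ T * (3 * R.card) := Nat.mul_le_mul_left _ hc
              _ = 3 ^ (T + 1) * R.card := by ring
              _ ≤ 4 ^ (T + 1) := hRc
              _ = 4 * 4 ^ T := by ring
          omega
        · have h5 : R.card ≤ n := by
            have := card_le_univ R
            rwa [Fintype.card_fin] at this
          have h6 : Nat.log 2 R.card ≤ Nat.log 2 n := Nat.log_mono_right h5
          gcongr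
    obtain ⟨R', hR', hne, hc, rep, hrep, hs⟩ := key
    obtain ⟨cod, hid, hdec⟩ := ih R' hne hc
    choose f hf using fun u => list_code hN (sepR G R u (rep u)) (hs u)
    refine ⟨fun u => (Fin.castLE hN u, f u, cod (rep u)), fun u _ => rfl, fun u hu v hv => ?_⟩
    show Xor (Xor (dec N d T (cod (rep u)) (cod (rep v)))
      (∃ j, f u j = some (Fin.castLE hN v)))
      (∃ j, f v j = some (idc N d T (cod (rep u)))) ↔ G.Adj u v
    rw [hid _ (hrep u hu), hf, hf, hdec _ (hrep u hu) _ (hrep v hv), mem_sepR, mem_sepR]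
    have e1 : v ∈ R := hv
    have e2 : rep u ∈ R := hR' (hrep u hu)
    have e3 : G.Adj v u ↔ G.Adj u v := G.adj_comm _ _
    have e4 : G.Adj v (rep u) ↔ G.Adj (rep u) v := G.adj_comm _ _
    rw [e3, e4, and_iff_right e1, and_iff_right e2]
    unfold Xor
    by_cases q1 : G.Adj (rep u) (rep v) <;> by_cases q2 : G.Adj u v <;>
      by_cases q3 : G.Adj (rep u) v <;> simp [q1, q2, q3]

/-- **Every small hereditary class has labels of length `O(log ^ 4 n)`.** -/
theorem main (C : (n : ℕ) → Set (SimpleGraph (Fin n))) (hered : Hered C)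
    (small : ∃ c : ℕ, SmallC c C) :
    ∃ (K : ℕ) (dc : List Bool → List Bool → Bool), ∀ (n : ℕ) (G : SimpleGraph (Fin n)),
      G ∈ C n → ∃ l : Fin n → List Bool, Function.Injective l ∧
        (∀ v, (l v).length = K * (Nat.log 2 n + 1) ^ 4) ∧
        ∀ u v, (G.Adj u v ↔ dc (l u) (l v) = true) := by
  classical
  obtain ⟨c, hc⟩ := small
  have hK : ∀ b : ℕ, Nat.card (Code (2 ^ (b + 1)) (2 * KK c * (b + 1) ^ 2) (3 * (b + 1))) ≤
      2 ^ ((12 * KK c + 4) * (b + 1) ^ 4) := by
    intro b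
    rw [card_code]
    have h1 : 2 ^ (b + 1) + 1 ≤ 2 ^ (b + 2) := by
      have : 1 ≤ 2 ^ (b + 1) := Nat.one_le_two_pow
      have h : 2 ^ (b + 2) = 2 * 2 ^ (b + 1) := by ring
      omega
    calc 2 ^ (b + 1) * ((2 ^ (b + 1) + 1) ^ (2 * KK c * (b + 1) ^ 2) * 2 ^ (b + 1)) ^ (3 * (b + 1))
        ≤ 2 ^ (b + 1) * ((2 ^ (b + 2)) ^ (2 * KK c * (b + 1) ^ 2) * 2 ^ (b + 1)) ^ (3 * (b + 1)) := by
          gcongr
      _ = 2 ^ ((b + 1) + ((b + 2) * (2 * KK c * (b + 1) ^ 2) + (b + 1)) * (3 * (b + 1))) := by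
          rw [← pow_mul, ← pow_add, ← pow_mul, ← pow_add]
      _ ≤ 2 ^ ((12 * KK c + 4) * (b + 1) ^ 4) := by
          apply Nat.pow_le_pow_right (by norm_num)
          generalize KK c = k
          have h2 : b + 2 ≤ 2 * (b + 1) := by omega
          have h3 : (b + 1) ≤ (b + 1) ^ 4 := Nat.le_self_pow (by norm_num) _
          have h4 : (b + 1) ^ 2 ≤ (b + 1) ^ 4 := Nat.pow_le_pow_right (by omega) (by norm_num)
          calc (b + 1) + ((b + 2) * (2 * k * (b + 1) ^ 2) + (b + 1)) * (3 * (b + 1))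
              ≤ (b + 1) + ((2 * (b + 1)) * (2 * k * (b + 1) ^ 2) + (b + 1)) * (3 * (b + 1)) := by
                gcongr
            _ = (b + 1) + 3 * (b + 1) ^ 2 + 12 * k * (b + 1) ^ 4 := by ring
            _ ≤ (b + 1) ^ 4 + 3 * (b + 1) ^ 4 + 12 * k * (b + 1) ^ 4 := by gcongr
            _ = (12 * k + 4) * (b + 1) ^ 4 := by ring
  have henc : ∀ b : ℕ, ∃ enc : Code (2 ^ (b + 1)) (2 * KK c * (b + 1) ^ 2) (3 * (b + 1)) →
      List Bool, Function.Injective enc ∧
        ∀ x, (enc x).length = (12 * KK c + 4) * (b + 1) ^ 4 := by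
    intro b
    have hfin := finite_code (2 ^ (b + 1)) (2 * KK c * (b + 1) ^ 2) (3 * (b + 1))
    let _ := Fintype.ofFinite (Code (2 ^ (b + 1)) (2 * KK c * (b + 1) ^ 2) (3 * (b + 1)))
    have h1 : Fintype.card (Code (2 ^ (b + 1)) (2 * KK c * (b + 1) ^ 2) (3 * (b + 1))) ≤
        Fintype.card (Fin ((12 * KK c + 4) * (b + 1) ^ 4) → Bool) := by
      rw [← Nat.card_eq_fintype_card]
      refine (hK b).trans ?_
      simp
    obtain ⟨ι⟩ := Function.Embedding.nonempty_of_card_le h1
    refine ⟨fun x => List.ofFn (ι x), fun x y h => ι.injective (List.ofFn_injective h),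
      fun x => ?_⟩
    rw [List.length_ofFn]
  choose enc hinj hlen using henc
  have hb : ∀ b b' x x', enc b x = enc b' x' → b = b' := by
    intro b b' x x' h
    have h1 := congrArg List.length h
    rw [hlen, hlen] at h1
    have h2 : (b + 1) ^ 4 = (b' + 1) ^ 4 := Nat.eq_of_mul_eq_mul_left (by omega) h1
    have h3 := Nat.pow_left_injective (n := 4) (by norm_num) h2
    simpa using h3
  refine ⟨12 * KK c + 4, fun l1 l2 => decide (∃ (b : ℕ) (x y : Code (2 ^ (b + 1))
    (2 * KK c * (b + 1) ^ 2) (3 * (b + 1))), l1 = enc b x ∧ l2 = enc b y ∧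
      dec _ _ _ x y), fun n G hG => ?_⟩
  rcases Nat.eq_zero_or_pos n with hn | hn
  · subst hn
    exact ⟨fun v => v.elim0, fun v => v.elim0, fun v => v.elim0, fun v => v.elim0⟩
  set b := Nat.log 2 n with hbdef
  have hnN : n ≤ 2 ^ (b + 1) := (Nat.lt_pow_succ_log_self (by norm_num) n).le
  have : Nonempty (Fin n) := ⟨⟨0, hn⟩⟩
  obtain ⟨cod, hid, hdec⟩ := exists_code c C hered hc n G hG (2 ^ (b + 1))
    (2 * KK c * (b + 1) ^ 2) hnN le_rfl (3 * (b + 1)) univ univ_nonempty (by
      rw [card_univ, Fintype.card_fin]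
      calc 3 ^ (3 * (b + 1)) * n ≤ 3 ^ (3 * (b + 1)) * 2 ^ (b + 1) := by gcongr
        _ = 54 ^ (b + 1) := by
            rw [pow_mul, ← mul_pow]
            norm_num
        _ ≤ 64 ^ (b + 1) := Nat.pow_le_pow_left (by norm_num) _
        _ = 4 ^ (3 * (b + 1)) := by
            rw [pow_mul]
            norm_num)
  refine ⟨fun v => enc b (cod v), ?_, fun v => hlen b _, fun u v => ?_⟩
  · intro u v h
    have h1 := hinj b h
    have h2 := hid u (mem_univ _)
    rw [h1, hid v (mem_univ _)] at h2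
    exact (Fin.castLE_injective hnN h2).symm
  · rw [decide_eq_true_iff, ← hdec u (mem_univ _) v (mem_univ _)]
    constructor
    · intro h
      exact ⟨b, cod u, cod v, rfl, rfl, h⟩
    · rintro ⟨b', x, y, hx, hy, h⟩
      have h1 := hb _ _ _ _ hx
      subst h1
      rw [hinj _ hx, hinj _ hy]
      exact h

end Pool.Agent.H314.PL
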